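import Pool.Agent.TH519.HS.SgC

/-!
# Almost all singular matrices of logarithms satisfy the conclusion of Q1

Q1 asks whether for every singular `n × n` matrix `M` of logarithms of algebraic numbers there are
nonzero rational vectors `w, v` with `wᵗ M v = 0`. This is clear if the rows or the columns of `M`
are linearly dependent over `ℚ`. We show that the singular matrices with independent rows and columns
are rare among the singular matrices, in two senses.

* Dimension. Let `W` be a space of dimension `N ≥ n (n + 1)` over the field `ℚ̄` of the algebraic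
  numbers, which consists of linear forms in `1` and logarithms of algebraic numbers. The `n × n`
  matrices over `W` form a space of dimension `n ^ 2 N`, and those with linearly dependent rows form
  a set of codimension `n N - (n - 1)`. We show that the singular matrices whose rows are linearly
  independent over `ℚ̄` and whose columns are linearly independent over `ℚ̄` lie in an algebraic
  subset of codimension at least `(n + 1) N - n (2 n + 1)`. (A set lies in an algebraic subset of
  dimension at most `d` if and only if any `d + 1` linear forms satisfy a nontrivial polynomial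
  relation on it.)
* Counting. Let `l_1, ..., l_N` be logarithms of algebraic numbers which are linearly independent
  over `ℚ`, for example the logarithms of `N` prime numbers. The matrices with entries
  `∑ A_ijk l_k`, where the `A_ijk` are integers of absolute value at most `H`, are finitely many. At
  least `H ^ (n (n - 1) N)` of them are singular, and we show that at most
  `κ H ^ (n (n - 1) N - (N - n (2 n + 1)))` of them are singular and violate the conclusion of Q1
  (or have independent rows and independent columns). So for `N > n (2 n + 1)` the proportion of the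
  violations among the singular matrices tends to `0` as `H → ∞`, as `H ^ (-(N - n (2 n + 1)))`.

The proof: let `M` be a singular matrix with independent rows and columns over an ultrapower of `ℚ̄`
(coordinates with respect to a basis of `W`) with `c M = 0` and `M d = 0` for nonzero `c, d`. If the
first assertion fails, then we may choose `M` so that `d + 1` linear forms in the coordinates are
algebraically independent over `ℚ̄`. The derivations with respect to these forms extend to
derivations of the ultrapower of `ℂ` which vanish on `ℂ` (`FE.Ops`), and they map `M` to matrices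
`D M` in the span of `W` over a field `K` of algebraically closed coefficients. As
`D (c M) = 0` we have `(D c) M + c (D M) = 0`, so `c (D M) d = 0` (`HS.Rk`, `HS.Sg`). If
`a` denotes the dimension of the span of the coordinates of `c` over the algebraically closed field
of coefficients, then `a ≥ 2`, as the rows are independent. For `a = n` there are at least `n + 1`
linearly independent products among the `c_i d_j` (`HS.Bil`). For `a < n` we reduce the matrix to
`a` rows and use that the kernel of the reduced matrix has dimension at least `n - a + 1`, which gives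
`a (n - a + 1) ≥ n + 1` such products. In both cases the hyperplane case of the linear subgroup
theorem of Waldschmidt and Roy (`W254.HP`) bounds the dimension of the space of the matrices `D M`
(`HS.Gen2`) by `n (n + 1) + (n ^ 2 - n - 1) N + a n`. The second assertion follows by a linear
Noether normalisation with bounded fibres (`HS.Cnt`).
-/

set_option autoImplicit false

namespace Pool.Agent.Results.MP_1f047c_nt.AlmostAllSingular

/-- The space of all linear combinations, with algebraic coefficients, of `1` and of logarithms of
algebraic numbers. -/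
noncomputable def LogForms : Submodule (algebraicClosure ℚ ℂ) ℂ :=
  Submodule.span (algebraicClosure ℚ ℂ) ({1} ∪ {z : ℂ | IsAlgebraic ℚ (Complex.exp z)})

/-- The matrix with the entries `∑ k, A i j k * l k`. -/
noncomputable def logMatrix {n N : ℕ} (l : Fin N → ℂ) (A : Fin n → Fin n → Fin N → ℤ) :
    Matrix (Fin n) (Fin n) ℂ :=
  Matrix.of fun i j => ∑ k, (A i j k : ℂ) * l k

/-- The conclusion of Q1: there are nonzero rational vectors `w`, `v` with `wᵗ M v = 0`. -/
def HasRationalZero {n : ℕ} (M : Matrix (Fin n) (Fin n) ℂ) : Prop :=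
  ∃ w v : Fin n → ℚ, w ≠ 0 ∧ v ≠ 0 ∧ ∑ i, ∑ j, (w i : ℂ) * M i j * (v j : ℂ) = 0

/-- The rows of `M` are linearly independent over `K` and the columns of `M` are linearly
independent over `K`. -/
def IndependentOver (K : Type) [Field K] [Module K ℂ] {n : ℕ} (M : Matrix (Fin n) (Fin n) ℂ) :
    Prop :=
  LinearIndependent K (fun i j => M i j) ∧ LinearIndependent K (fun j i => M i j)

/-- A matrix which violates the conclusion of Q1 has independent rows and columns. -/
theorem independent_of_not {n : ℕ} (hn : 1 ≤ n) {M : Matrix (Fin n) (Fin n) ℂ}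
    (h : ¬ HasRationalZero M) : IndependentOver ℚ M := by
  have h1 : ∃ v : Fin n → ℚ, v ≠ 0 :=
    ⟨fun _ => 1, fun h' => one_ne_zero (congrFun h' ⟨0, hn⟩)⟩
  obtain ⟨v, hv⟩ := h1
  constructor
  · rw [Fintype.linearIndependent_iff]
    intro w hw
    by_contra hne
    push Not at hne
    obtain ⟨i₀, hi₀⟩ := hne
    refine h ⟨w, v, fun h' => hi₀ (congrFun h' i₀), hv, ?_⟩
    rw [Finset.sum_comm]
    refine Finset.sum_eq_zero fun j _ => ?_
    have h2 := congrFun hw j
    rw [Finset.sum_apply] at h2
    rw [← Finset.sum_mul]
    have h3 : ∑ i, (w i : ℂ) * M i j = 0 := by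
      rw [Pi.zero_apply] at h2
      rw [← h2]
      refine Finset.sum_congr rfl fun i _ => ?_
      rw [Pi.smul_apply, Rat.smul_def]
    rw [h3, zero_mul]
  · rw [Fintype.linearIndependent_iff]
    intro w hw
    by_contra hne
    push Not at hne
    obtain ⟨i₀, hi₀⟩ := hne
    refine h ⟨v, w, hv, fun h' => hi₀ (congrFun h' i₀), ?_⟩
    refine Finset.sum_eq_zero fun i _ => ?_
    have h2 := congrFun hw i
    rw [Finset.sum_apply, Pi.zero_apply] at h2
    have h3 : ∑ j, M i j * (w j : ℂ) = 0 := by
      rw [← h2]
      refine Finset.sum_congr rfl fun j _ => ?_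
      rw [Pi.smul_apply, Rat.smul_def, mul_comm]
    have h4 : ∑ j, (v i : ℂ) * M i j * (w j : ℂ) = (v i : ℂ) * ∑ j, M i j * (w j : ℂ) := by
      rw [Finset.mul_sum]
      refine Finset.sum_congr rfl fun j _ => ?_
      ring
    rw [h4, h3, mul_zero]

theorem dim_part (n : ℕ) (W : Submodule (algebraicClosure ℚ ℂ) ℂ)
    [FiniteDimensional (algebraicClosure ℚ ℂ) W] (hW : W ≤ LogForms)
    (hN : n * (n + 1) ≤ Module.finrank (algebraicClosure ℚ ℂ) W)
    (φ : Fin (n * (2 * n + 1) +
        (n * n - (n + 1)) * Module.finrank (algebraicClosure ℚ ℂ) W + 1) →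
      (Matrix (Fin n) (Fin n) W →ₗ[algebraicClosure ℚ ℂ] algebraicClosure ℚ ℂ)) :
    ∃ P : MvPolynomial (Fin (n * (2 * n + 1) +
        (n * n - (n + 1)) * Module.finrank (algebraicClosure ℚ ℂ) W + 1))
        (algebraicClosure ℚ ℂ), P ≠ 0 ∧
      ∀ A : Matrix (Fin n) (Fin n) W, (A.map (fun x => (x : ℂ))).det = 0 →
        IndependentOver (algebraicClosure ℚ ℂ) (A.map (fun x => (x : ℂ))) →
        MvPolynomial.eval (fun k => φ k A) P = 0 := by
  have hMn : n * n + n ≤ Module.finrank (algebraicClosure ℚ ℂ) W := by
    have : n * (n + 1) = n * n + n := by ring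
    omega
  obtain ⟨P, hP1, hP2⟩ := Pool.Agent.TH519.HS.sing_dim W hW hMn φ
  refine ⟨P, hP1, fun A hdet hA => hP2 A ⟨hdet, fun w hw => ?_, fun w hw => ?_⟩⟩
  · have h1 := hA.1
    rw [Fintype.linearIndependent_iff] at h1
    funext i
    refine h1 w ?_ i
    funext j
    rw [Finset.sum_apply]
    exact hw j
  · have h1 := hA.2
    rw [Fintype.linearIndependent_iff] at h1
    funext j
    refine h1 w ?_ j
    funext i
    rw [Finset.sum_apply]
    change _ = (0 : ℂ)
    rw [← hw i]
    refine Finset.sum_congr rfl fun j _ => ?_
    rw [Pi.smul_apply, Algebra.smul_def, mul_comm]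
    rfl

/-- **Main result.** -/
theorem result (n : ℕ) :
    (∀ (W : Submodule (algebraicClosure ℚ ℂ) ℂ) [FiniteDimensional (algebraicClosure ℚ ℂ) W],
      W ≤ LogForms → n * (n + 1) ≤ Module.finrank (algebraicClosure ℚ ℂ) W →
      ∀ φ : Fin (n * (2 * n + 1) +
          (n * n - (n + 1)) * Module.finrank (algebraicClosure ℚ ℂ) W + 1) →
        (Matrix (Fin n) (Fin n) W →ₗ[algebraicClosure ℚ ℂ] algebraicClosure ℚ ℂ),
      ∃ P : MvPolynomial (Fin (n * (2 * n + 1) +
          (n * n - (n + 1)) * Module.finrank (algebraicClosure ℚ ℂ) W + 1))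
          (algebraicClosure ℚ ℂ), P ≠ 0 ∧
        ∀ A : Matrix (Fin n) (Fin n) W, (A.map (fun x => (x : ℂ))).det = 0 →
          IndependentOver (algebraicClosure ℚ ℂ) (A.map (fun x => (x : ℂ))) →
          MvPolynomial.eval (fun k => φ k A) P = 0) ∧
    ∀ (N : ℕ) (l : Fin N → ℂ), 2 ≤ n → n * (n + 1) ≤ N →
      (∀ k, IsAlgebraic ℚ (Complex.exp (l k))) → LinearIndependent ℚ l →
      ∃ κ : ℕ, ∀ H : ℕ, 1 ≤ H →
        Set.ncard {A : Fin n → Fin n → Fin N → ℤ | (∀ i j k, |A i j k| ≤ H) ∧
            (logMatrix l A).det = 0 ∧ IndependentOver ℚ (logMatrix l A)} * H ^ N ≤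
          κ * H ^ (n * (2 * n + 1)) *
            Set.ncard {A : Fin n → Fin n → Fin N → ℤ | (∀ i j k, |A i j k| ≤ H) ∧
              (logMatrix l A).det = 0} ∧
        Set.ncard {A : Fin n → Fin n → Fin N → ℤ | (∀ i j k, |A i j k| ≤ H) ∧
            (logMatrix l A).det = 0 ∧ ¬ HasRationalZero (logMatrix l A)} * H ^ N ≤
          κ * H ^ (n * (2 * n + 1)) *
            Set.ncard {A : Fin n → Fin n → Fin N → ℤ | (∀ i j k, |A i j k| ≤ H) ∧
              (logMatrix l A).det = 0} := by
  refine ⟨fun W _ hW hN φ => dim_part n W hW hN φ, fun N l hn hN halg hli => ?_⟩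
  have hMn : n * n + n ≤ N := by
    have : n * (n + 1) = n * n + n := by ring
    omega
  obtain ⟨κ, hκ⟩ := Pool.Agent.TH519.HS.almost_all hn hMn l halg hli
  refine ⟨κ, fun H hH => ⟨hκ H hH, le_trans (Nat.mul_le_mul_right _ ?_) (hκ H hH)⟩⟩
  refine Set.ncard_le_ncard ?_ (Pool.Agent.TH519.HS.sing_finite H _)
  rintro A ⟨h1, h2, h3⟩
  exact ⟨h1, h2, independent_of_not (by omega) h3⟩

end Pool.Agent.Results.MP_1f047c_nt.AlmostAllSingular
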