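import Pool.Agent.TH910.LR.Final

/-!
# Counting the matrices of low rank whose entries are logarithms

Let `ℓ_b` be `ℚ`-linearly independent logarithms of algebraic numbers (complex or `p`-adic), `F` a
finite set of algebraic numbers in a field `K`, `q = |F| + 2`, and `A`, `A'` finite sets of
combinations of `1` and the `ℓ_b` with coefficients in `F`.  The bounds below are uniform: they
depend only on `q`, on the size of the matrices and on `|A|`, `|A'|`.  For instance `A` can be any
finite set of linearly independent logarithms (`q = 4`), or the set of the logarithms of the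
integers up to `X` (`q = ⌊log₂ X⌋ + 3`).

* A subspace `V` of `E^n` contains at most `q^(n³) |A|^d` points with coordinates in `A`, where `d`
  is the dimension of the span of the algebraic vectors of `V`.
* The number of `m × n` matrices of rank at most `k` with entries in `A` is between
  `|A|^(k max(m,n))` and `q^e |A|^(k max(m,n))`.
* If `n < m`, the proportion of those whose kernel is not spanned by vectors over `K` is at most
  `q^e |A|^(-(m-n)-(k-1))`.
* If `m = n ≥ k + 2`, the proportion of those such that neither the kernel nor the left kernel is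
  spanned by vectors over `K` is at most `q^e |A|^(-1-(k-2))`.
* Among the singular square matrices with the last row in `A'` and the other rows in `A`, the
  proportion of those with no nonzero vector over `K` in the kernel nor in the left kernel is at
  most `q^e ((|A|/|A'|)² + (n-1) |A|^(-(n-1)))` in size `n + 1 ≥ 3` and at most `q^e |A|/|A'|` in
  size two.  When `K = ℚ` this bounds the proportion of the counterexamples to the questions Q1
  and Q2 of `MP_1f047c_nt`.
-/

set_option autoImplicit false

namespace Pool.Agent.Results.MP_1f047c_nt.CountingLowRank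

open Pool.Agent.TH910.LR

/-- The conclusion of Q1 (of Q2) fails for the matrix `M`. -/
def Fails {E : Type*} [Field E] [CharZero E] {n : ℕ} (M : Matrix (Fin n) (Fin n) E) : Prop :=
  ∀ w v : Fin n → ℚ, w ≠ 0 → v ≠ 0 → ∑ i, ∑ j, (w i : E) * M i j * (v j : E) ≠ 0

/-- The bound for the proportion of the counterexamples among the singular square matrices with
the last row in `A'` and the other rows in `A`. -/
def FewFailures {E : Type*} [Field E] [CharZero E] (q : ℕ) (A A' : Finset E) : Prop :=
  A.card ≤ A'.card →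
    (∀ n : ℕ, 2 ≤ n → {M ∈ Sing A A' n | Fails M}.ncard * (A.card ^ (n - 1) * A'.card ^ 2) ≤
      q ^ expo (n + 1) (n + 1) * (A.card ^ (n + 1) + (n - 1) * A'.card ^ 2) *
        (Sing A A' n).ncard) ∧
    {M ∈ Sing A A' 1 | Fails M}.ncard * A'.card ≤
      q ^ expo 2 2 * A.card * (Sing A A' 1).ncard

/-- `L` is the Iwasawa `p`-adic logarithm on the algebraic closure of `ℚ_p`. -/
def IsIwasawaLog (p : ℕ) [Fact p.Prime] (L : PadicAlgCl p → PadicAlgCl p) : Prop :=
  (∀ x y : PadicAlgCl p, x ≠ 0 → y ≠ 0 → L (x * y) = L x + L y) ∧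
  L ((p : ℕ) : PadicAlgCl p) = 0 ∧
  ∀ z : PadicAlgCl p, ‖z‖ < 1 →
    HasSum (fun n : ℕ => (-1 : PadicAlgCl p) ^ n * z ^ (n + 1) / ((n : PadicAlgCl p) + 1))
      (L (1 + z))

theorem fewFailures {E : Type*} [Field E] [CharZero E] {q : ℕ} {A A' : Finset E}
    (h : Counting (⊥ : IntermediateField ℚ E) q A A') : FewFailures q A A' := by
  intro hAA
  obtain ⟨-, -, -, -, h5, h6⟩ := h
  have hsub : ∀ n, {M ∈ Sing A A' n | Fails M} ⊆ {M ∈ Sing A A' n |
      ¬ RatVector (⊥ : IntermediateField ℚ E) M ∧
        ¬ RatVector (⊥ : IntermediateField ℚ E) M.transpose} := by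
    intro n M hM
    refine ⟨hM.1, fun hcon => ?_, fun hcon => ?_⟩
    · obtain ⟨w, v, hw, hv, hz⟩ := zero_of_ratVector (Or.inl hcon)
      exact hM.2 w v hw hv hz
    · obtain ⟨w, v, hw, hv, hz⟩ := zero_of_ratVector (Or.inr hcon)
      exact hM.2 w v hw hv hz
  have hcard : ∀ n, {M ∈ Sing A A' n | Fails M}.ncard ≤ {M ∈ Sing A A' n |
      ¬ RatVector (⊥ : IntermediateField ℚ E) M ∧
        ¬ RatVector (⊥ : IntermediateField ℚ E) M.transpose}.ncard := fun n =>
    Set.ncard_le_ncard (hsub n) ((sing_finite A A' n).subset fun M hM => hM.1)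
  exact ⟨fun n hn => (Nat.mul_le_mul_right _ (hcard n)).trans (h5 n hn hAA),
    (Nat.mul_le_mul_right _ (hcard 1)).trans (h6 hAA)⟩

/-- **Main result.** -/
theorem result :
    -- complex logarithms
    (∀ (B : Type) (l : B → ℂ) (F : Finset ℂ) (K : IntermediateField ℚ ℂ) (A A' : Finset ℂ),
      (∀ b, IsAlgebraic ℚ (Complex.exp (l b))) → LinearIndependent ℚ l →
      (∀ c ∈ F, IsAlgebraic ℚ c ∧ c ∈ K) → A.Nonempty →
      (∀ z, z ∈ A ∨ z ∈ A' → IsComb l F z) →
        Counting K (F.card + 2) A A' ∧ (K = ⊥ → FewFailures (F.card + 2) A A')) ∧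
    -- `p`-adic logarithms
    (∀ (p : ℕ) [Fact p.Prime] (L : PadicAlgCl p → PadicAlgCl p), IsIwasawaLog p L →
      ∀ (B : Type) (α : B → PadicAlgCl p) (F : Finset (PadicAlgCl p))
        (K : IntermediateField ℚ (PadicAlgCl p)) (A A' : Finset (PadicAlgCl p)),
      (∀ b, α b ≠ 0 ∧ IsAlgebraic ℚ (α b)) → LinearIndependent ℚ (fun b => L (α b)) →
      (∀ c ∈ F, IsAlgebraic ℚ c ∧ c ∈ K) → A.Nonempty →
      (∀ z, z ∈ A ∨ z ∈ A' → IsComb (fun b => L (α b)) F z) →
        Counting K (F.card + 2) A A' ∧ (K = ⊥ → FewFailures (F.card + 2) A A')) ∧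
    -- the logarithms of the integers
    (∀ X Y : ℕ, 1 ≤ X → X ≤ Y → (logs X).card = X ∧ (logs Y).card = Y ∧
      Counting ⊥ (Nat.log 2 Y + 3) (logs X) (logs Y) ∧
      FewFailures (Nat.log 2 Y + 3) (logs X) (logs Y)) := by
  refine ⟨?_, ?_, ?_⟩
  · intro B l F K A A' hl hli hF hA hAF
    have h := counting_of_upper (upperBounds_complex l hl hli F (fun c hc => (hF c hc).1) K
      (fun c hc => (hF c hc).2) A A' hA hAF)
    refine ⟨h, ?_⟩
    rintro rfl
    exact fewFailures h
  · intro p _ L hL B α F K A A' hα hli hF hA hAF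
    have hL' : Pool.Agent.W245.PB.IsIwasawaLog p L := ⟨hL.1, hL.2.1, hL.2.2⟩
    have h := counting_of_upper (upperBounds_padic hL' α (fun b => (hα b).1)
      (fun b => (hα b).2) hli F (fun c hc => (hF c hc).1) K (fun c hc => (hF c hc).2) A A' hA hAF)
    refine ⟨h, ?_⟩
    rintro rfl
    exact fewFailures h
  · intro X Y hX hXY
    have h := counting_of_upper (upperBounds_logs hX hXY)
    exact ⟨card_logs X, card_logs Y, h, fewFailures h⟩

end Pool.Agent.Results.MP_1f047c_nt.CountingLowRank
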