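import Mathlib
import Pool.Agent.W332.OK.Final

set_option autoImplicit false

namespace Pool.Agent.Results.MP_1f047c_nt.KernelPlane

/-- Let `M` be an `n × n` matrix of logarithms of algebraic numbers and let `K ⊂ ℂ` be a number
field. Suppose that `M` has a nonzero left or right kernel vector all of whose coordinates lie in
`K x + K y` for some complex numbers `x`, `y`. If `n` is odd, or if `n > 2 [K : ℚ]`, then there are
nonzero rational vectors `w`, `v` with `wᵗ M v = 0`. -/
theorem result {n : ℕ} (M : Matrix (Fin n) (Fin n) ℂ)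
    (hM : ∀ i j, IsAlgebraic ℚ (Complex.exp (M i j)))
    (K : Type) [Field K] [NumberField K] (ι : K →+* ℂ) (hn : Odd n ∨ 2 * Module.finrank ℚ K < n)
    (a b : Fin n → K) (x y : ℂ) (hξ : (fun i => ι (a i) * x + ι (b i) * y) ≠ 0)
    (hker : M.mulVec (fun i => ι (a i) * x + ι (b i) * y) = 0 ∨
      M.vecMul (fun i => ι (a i) * x + ι (b i) * y) = 0) :
    ∃ w v : Fin n → ℚ, w ≠ 0 ∧ v ≠ 0 ∧
      ∑ i, ∑ j, ((w i : ℚ) : ℂ) * M i j * ((v j : ℚ) : ℂ) = 0 :=
  Pool.Agent.W332.OK.complex_case M hM K ι hn a b x y hξ hker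

end Pool.Agent.Results.MP_1f047c_nt.KernelPlane
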