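import Mathlib
import Pool.Agent.W332.OK.Final

set_option autoImplicit false

namespace Pool.Agent.Results.MP_1f047c_nt.KernelPlanePadic

/-- `L` is the Iwasawa `p`-adic logarithm on the algebraic closure of `ℚ_p`. -/
def IsIwasawaLog (p : ℕ) [Fact p.Prime] (L : PadicAlgCl p → PadicAlgCl p) : Prop :=
  (∀ x y : PadicAlgCl p, x ≠ 0 → y ≠ 0 → L (x * y) = L x + L y) ∧
  L ((p : ℕ) : PadicAlgCl p) = 0 ∧
  ∀ z : PadicAlgCl p, ‖z‖ < 1 →
    HasSum (fun n : ℕ => (-1 : PadicAlgCl p) ^ n * z ^ (n + 1) / ((n : PadicAlgCl p) + 1))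
      (L (1 + z))

/-- Let `M` be an `n × n` matrix of `p`-adic logarithms of algebraic numbers and let `K` be a number
field embedded into the algebraic closure of `ℚ_p`. Suppose that `M` has a nonzero left or right
kernel vector all of whose coordinates lie in `K x + K y` for some `x`, `y`. If `n` is odd, or if
`n > 2 [K : ℚ]`, then there are nonzero rational vectors `w`, `v` with `wᵗ M v = 0`. -/
theorem result (p : ℕ) [Fact p.Prime] (L : PadicAlgCl p → PadicAlgCl p) (hL : IsIwasawaLog p L)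
    {n : ℕ} (M : Matrix (Fin n) (Fin n) (PadicAlgCl p))
    (hM : ∀ i j, ∃ α : PadicAlgCl p, α ≠ 0 ∧ IsAlgebraic ℚ α ∧ M i j = L α)
    (K : Type) [Field K] [NumberField K] (ι : K →+* PadicAlgCl p)
    (hn : Odd n ∨ 2 * Module.finrank ℚ K < n)
    (a b : Fin n → K) (x y : PadicAlgCl p) (hξ : (fun i => ι (a i) * x + ι (b i) * y) ≠ 0)
    (hker : M.mulVec (fun i => ι (a i) * x + ι (b i) * y) = 0 ∨
      M.vecMul (fun i => ι (a i) * x + ι (b i) * y) = 0) :
    ∃ w v : Fin n → ℚ, w ≠ 0 ∧ v ≠ 0 ∧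
      ∑ i, ∑ j, ((w i : ℚ) : PadicAlgCl p) * M i j * ((v j : ℚ) : PadicAlgCl p) = 0 :=
  Pool.Agent.W332.OK.padic_case ⟨hL.1, hL.2.1, hL.2.2⟩ M hM K ι hn a b x y hξ hker

end Pool.Agent.Results.MP_1f047c_nt.KernelPlanePadic
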